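import Pool.Agent.Y472.K.Defs

/-!
# The configurations away from the maximum (tasks FAR and FARX)
-/

set_option autoImplicit false

namespace Pool.Agent.Y100.TK

open Finset Filter Topology MeasureTheory
open Pool.Agent.W711.HT Pool.Agent.Y472.K
open Pool.Agent.Y391.CB (kN)
open scoped Real

/-! ### Continuity -/

theorem Lc_cont : Continuous Lc := by
  have h1 : ∀ a b : ℝ, IntervalIntegrable (fun t : ℝ => Real.log (2 * Real.sin (π * t)))
      volume a b := by
    intro a b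
    have h2 : MeromorphicOn (fun t : ℝ => 2 * Real.sin (π * t)) (Set.uIcc a b) := by
      intro t _
      have h3 : AnalyticAt ℝ (fun t : ℝ => 2 * Real.sin (π * t)) t := by fun_prop
      exact h3.meromorphicAt
    exact h2.intervalIntegrable_log
  exact (intervalIntegral.continuous_primitive h1 0).neg

theorem cos_ne {y : ℝ} (hy : 0 < y) (x t : ℝ) :
    2 * Complex.cos (x + y * Complex.I) - 2 * (Real.cos (2 * π * t) : ℂ) ≠ 0 := by
  intro h
  have e : Complex.cos (x + y * Complex.I) = ((Real.cos x * Real.cosh y : ℝ) : ℂ) -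
      ((Real.sin x * Real.sinh y : ℝ) : ℂ) * Complex.I := by
    rw [Complex.cos_add_mul_I]
    push_cast
    rfl
  rw [e] at h
  have hre := congrArg Complex.re h
  have him := congrArg Complex.im h
  simp only [Complex.sub_re, Complex.mul_re, Complex.ofReal_re, Complex.ofReal_im, Complex.I_re,
    Complex.I_im, Complex.re_ofNat, Complex.im_ofNat, Complex.zero_re, Complex.sub_im,
    Complex.mul_im, Complex.zero_im] at hre him
  have hs : 0 < Real.sinh y := Real.sinh_pos_iff.mpr hy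
  have hsin : Real.sin x = 0 := by
    have h1 : Real.sin x * Real.sinh y = 0 := by linarith
    exact (mul_eq_zero.mp h1).resolve_right hs.ne'
  have hc : 1 < Real.cosh y := Real.one_lt_cosh.mpr hy.ne'
  have h2 : Real.cos x ^ 2 = 1 := by
    have := Real.sin_sq_add_cos_sq x
    rw [hsin] at this
    linarith
  have h3 : Real.cos x * Real.cosh y = Real.cos (2 * π * t) := by linarith
  have h4 : (Real.cos x * Real.cosh y) ^ 2 ≤ 1 := by
    rw [h3]
    have := Real.sin_sq_add_cos_sq (2 * π * t)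
    nlinarith [sq_nonneg (Real.sin (2 * π * t))]
  rw [mul_pow, h2] at h4
  nlinarith

theorem lf_cont {y : ℝ} (hy : 0 < y) : Continuous fun p : ℝ × ℝ => lf p.1 y p.2 := by
  unfold lf
  refine Continuous.log ?_ ?_
  · fun_prop
  · intro p
    exact norm_ne_zero_iff.mpr (cos_ne hy _ _)

theorem lf_cont' {y : ℝ} (hy : 0 < y) (x : ℝ) : Continuous fun t : ℝ => lf x y t := by
  have h1 : Continuous fun t : ℝ => ((x, t) : ℝ × ℝ) := by fun_prop
  exact Continuous.comp (g := fun p : ℝ × ℝ => lf p.1 y p.2) (f := fun t : ℝ => ((x, t) : ℝ × ℝ))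
    (lf_cont hy) h1

theorem lf_sub {y : ℝ} (hy : 0 < y) (x a b : ℝ) : ∫ t in b..a, lf x y t =
    (∫ t in (0 : ℝ)..a, lf x y t) - ∫ t in (0 : ℝ)..b, lf x y t :=
  (intervalIntegral.integral_interval_sub_left ((lf_cont' hy x).intervalIntegrable _ _)
    ((lf_cont' hy x).intervalIntegrable _ _)).symm

theorem int_cont {y : ℝ} (hy : 0 < y) {X : Type} [TopologicalSpace X] [FirstCountableTopology X]
    [LocallyCompactSpace X] {x a b : X → ℝ} (hx : Continuous x) (ha : Continuous a)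
    (hb : Continuous b) : Continuous fun p => ∫ t in (b p)..(a p), lf (x p) y t := by
  have h0 : Continuous fun q : X × ℝ => ((x q.1, q.2) : ℝ × ℝ) :=
    (hx.comp continuous_fst).prodMk continuous_snd
  have h1 : Continuous (Function.uncurry fun (p : X) (t : ℝ) => lf (x p) y t) :=
    Continuous.comp (g := fun p : ℝ × ℝ => lf p.1 y p.2)
      (f := fun q : X × ℝ => ((x q.1, q.2) : ℝ × ℝ)) (lf_cont hy) h0
  have e : (fun p => ∫ t in (b p)..(a p), lf (x p) y t) = fun p =>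
      (∫ t in (0 : ℝ)..(a p), lf (x p) y t) - ∫ t in (0 : ℝ)..(b p), lf (x p) y t := by
    funext p
    exact lf_sub hy (x p) (a p) (b p)
  rw [e]
  exact (intervalIntegral.continuous_parametric_intervalIntegral_of_continuous h1 ha).sub
    (intervalIntegral.continuous_parametric_intervalIntegral_of_continuous h1 hb)

theorem Ep_cont {y : ℝ} (hy : 0 < y) {X : Type} [TopologicalSpace X] [FirstCountableTopology X]
    [LocallyCompactSpace X] {x a b : X → ℝ} (hx : Continuous x) (ha : Continuous a)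
    (hb : Continuous b) : Continuous fun p => Ep (x p) y (a p) (b p) := by
  unfold Ep
  exact (Lc_cont.comp (ha.sub hb)).add (continuous_const.mul (int_cont hy hx ha hb))

variable {n : ℕ} [NeZero n]

theorem HH_cont {y : ℝ} (hy : 0 < y) :
    Continuous fun z : ((Fin n → ℝ) × (Fin n → ℝ)) × ℝ => HH n z.2 y z.1.1 z.1.2 := by
  unfold HH
  refine (continuous_finsetSum _ fun r _ => ?_).sub continuous_const
  have h1 : ∀ s : Fin n, Continuous fun z : ((Fin n → ℝ) × (Fin n → ℝ)) × ℝ => z.1.1 s :=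
    fun s => (continuous_apply s).comp (continuous_fst.comp continuous_fst)
  have h2 : ∀ s : Fin n, Continuous fun z : ((Fin n → ℝ) × (Fin n → ℝ)) × ℝ => z.1.2 s :=
    fun s => (continuous_apply s).comp (continuous_snd.comp continuous_fst)
  exact (Ep_cont hy continuous_snd (h1 r) (h2 r)).add
    (Ep_cont hy continuous_snd (h1 (r + 1)) (h2 r))

/-- an inequality on a compact set of `x` extends to a neighbourhood -/
theorem tube {y : ℝ} (hy : 0 < y) (p : (Fin n → ℝ) × (Fin n → ℝ)) {K : Set ℝ} (hK : IsCompact K)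
    {D : ℝ} (h : ∀ x ∈ K, HH n x y p.1 p.2 < D) : ∃ κ : ℝ, 0 < κ ∧
      ∀ᶠ q in 𝓝 p, ∀ x ∈ K, HH n x y q.1 q.2 ≤ D - κ := by
  have hc := HH_cont (n := n) hy
  rcases K.eq_empty_or_nonempty with rfl | hne
  · exact ⟨1, one_pos, Eventually.of_forall fun q x hx => absurd hx (Set.notMem_empty x)⟩
  · have h00 : Continuous fun x : ℝ => ((p, x) : ((Fin n → ℝ) × (Fin n → ℝ)) × ℝ) := by fun_prop
    have hcx : Continuous fun x : ℝ => HH n x y p.1 p.2 :=
      Continuous.comp (g := fun z : ((Fin n → ℝ) × (Fin n → ℝ)) × ℝ => HH n z.2 y z.1.1 z.1.2)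
        (f := fun x : ℝ => ((p, x) : ((Fin n → ℝ) × (Fin n → ℝ)) × ℝ)) hc h00
    obtain ⟨x₀, hx₀, hmax⟩ := hK.exists_isMaxOn hne hcx.continuousOn
    have h0 := h x₀ hx₀
    refine ⟨(D - HH n x₀ y p.1 p.2) / 2, by linarith, ?_⟩
    refine hK.eventually_forall_of_forall_eventually fun x hx => ?_
    have h1 : HH n x y p.1 p.2 ≤ HH n x₀ y p.1 p.2 := hmax hx
    have h2 : ∀ᶠ z : ((Fin n → ℝ) × (Fin n → ℝ)) × ℝ in 𝓝 (p, x),
        HH n z.2 y z.1.1 z.1.2 < D - (D - HH n x₀ y p.1 p.2) / 2 :=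
      hc.continuousAt.eventually_lt continuousAt_const (by
        show HH n x y p.1 p.2 < _
        linarith)
    exact h2.mono fun z hz => hz.le

/-! ### Bounds -/

theorem Sd_pos {N m : ℕ} (hm : m < N) : 0 < Sd N m := by
  unfold Sd
  refine Finset.prod_pos fun k hk => ?_
  have hk' := Finset.mem_range.mp hk
  have hN : (0 : ℝ) < N := by
    have : 0 < N := by omega
    exact_mod_cast this
  have h1 : ((k : ℝ) + 1) / N < 1 := by
    rw [div_lt_one hN]
    have : k + 1 < N := by omega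
    exact_mod_cast this
  have h2 : 0 < Real.sin (π * (k + 1) / N) := by
    apply Real.sin_pos_of_pos_of_lt_pi
    · positivity
    · rw [mul_div_assoc]
      exact mul_lt_of_lt_one_right Real.pi_pos h1
  linarith

/-- the sum of the rates -/
theorem HH_eq {y : ℝ} (hy : 0 < y) (x : ℝ) (a b : Fin n → ℝ) :
    HH n x y a b = ∑ r, (Lc (a r - b r) + Lc (a (r + 1) - b r)) +
      (∑ r, ∫ t in (b r)..(a (r + 1)), lf x y t) - y := by
  unfold HH Ep
  obtain ⟨P, hP⟩ : ∃ P : ℝ → ℝ, ∀ a b, ∫ t in b..a, lf x y t = P a - P b :=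
    ⟨fun u => ∫ t in (0 : ℝ)..u, lf x y t, fun a b => lf_sub hy x a b⟩
  have h1 : ∑ r : Fin n, P (a (r + 1)) = ∑ r : Fin n, P (a r) :=
    Equiv.sum_comp (Equiv.addRight (1 : Fin n)) fun r => P (a r)
  simp only [hP]
  simp only [Finset.sum_add_distrib, Finset.sum_sub_distrib, mul_sub, ← Finset.mul_sum]
  rw [h1]
  ring

theorem co_bd {N : ℕ} {i j : Fin n → ℕ} {ε : ℝ}
    (hS : ∀ m < N, (Sd N m)⁻¹ ≤ Real.exp (N * (Lc (m / N) + ε))) (h : Ok n N i j) :
    ‖co n N i j‖ ≤ Real.exp (N * (∑ r, (Lc ((i r : ℝ) / N - (j r : ℝ) / N) +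
      Lc ((i (r + 1) : ℝ) / N - (j r : ℝ) / N)) + 2 * n * ε)) := by
  have hSd : ∀ u v : ℕ, v ≤ u → u < N → ‖(Sd N (u - v) : ℂ)‖⁻¹ ≤
      Real.exp (N * (Lc ((u : ℝ) / N - (v : ℝ) / N) + ε)) := by
    intro u v huv hu
    have h1 : u - v < N := by omega
    have h2 := hS _ h1
    rw [Nat.cast_sub huv, sub_div] at h2
    rw [Complex.norm_real, Real.norm_of_nonneg (Sd_pos h1).le]
    exact h2
  have h1 : ∀ r : Fin n, ‖vN N ^ (((i r : ℤ) - i (r + 1)) * j r) /
      ((Sd N (i r - j r) : ℂ) * (Sd N (i (r + 1) - j r) : ℂ))‖ ≤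
      Real.exp (N * ((Lc ((i r : ℝ) / N - (j r : ℝ) / N) +
        Lc ((i (r + 1) : ℝ) / N - (j r : ℝ) / N)) + 2 * ε)) := by
    intro r
    have hv : ‖vN N‖ = 1 := by
      unfold vN
      have : (π : ℂ) * Complex.I / N = ((π / N : ℝ) : ℂ) * Complex.I := by
        push_cast
        ring
      rw [this, Complex.norm_exp_ofReal_mul_I]
    rw [norm_div, norm_zpow, hv, one_zpow, norm_mul, one_div, mul_inv]
    refine (mul_le_mul (hSd _ _ (h.le r) (h.lt r)) (hSd _ _ (h.le' r) (h.lt (r + 1)))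
      (by positivity) (by positivity)).trans (le_of_eq ?_)
    rw [← Real.exp_add]
    congr 1
    ring
  unfold co
  rw [norm_prod]
  refine (Finset.prod_le_prod (fun r _ => norm_nonneg _) fun r _ => h1 r).trans (le_of_eq ?_)
  rw [← Real.exp_sum]
  congr 1
  rw [← Finset.mul_sum, Finset.sum_add_distrib, Finset.sum_const, Finset.card_univ,
    Fintype.card_fin, nsmul_eq_mul]
  ring

theorem Qc_bd {N : ℕ} {i j : Fin n → ℕ} {y C : ℝ} {x : ℝ}
    (hQ : ∀ j i : ℕ, j ≤ i → i ≤ N → ∀ x : ℝ, ‖Pq N j i (x + y * Complex.I)‖ ≤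
      C * Real.exp (N * ∫ t in ((j : ℝ) / N)..((i : ℝ) / N), lf x y t)) (h : Ok n N i j) :
    ‖Qc n N i j (x + y * Complex.I)‖ ≤ C ^ n *
      Real.exp (N * ∑ r, ∫ t in ((j r : ℝ) / N)..((i (r + 1) : ℝ) / N), lf x y t) := by
  unfold Qc
  rw [norm_prod]
  refine (Finset.prod_le_prod (fun r _ => norm_nonneg _) fun r _ =>
    hQ _ _ (h.le' r) (h.lt (r + 1)).le x).trans (le_of_eq ?_)
  rw [Finset.prod_mul_distrib, Finset.prod_const, Finset.card_univ, Fintype.card_fin,
    ← Real.exp_sum, ← Finset.mul_sum]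

theorem kN_bd {y : ℝ} (hy : 0 < y) : ∀ᶠ N : ℕ in atTop, ∀ x : ℝ,
    ‖kN N (x + y * Complex.I)‖ ≤ 4 * Real.exp (-(N * y)) := by
  have h1 : Tendsto (fun N : ℕ => Real.exp (-((N : ℝ) * y))) atTop (𝓝 0) :=
    Real.tendsto_exp_neg_atTop_nhds_zero.comp
      (tendsto_natCast_atTop_atTop.atTop_mul_const hy)
  filter_upwards [h1.eventually_lt_const (show (0 : ℝ) < 1 / 2 by norm_num)] with N hN x
  unfold kN
  have e : ‖Complex.exp (Complex.I * N * (x + y * Complex.I))‖ = Real.exp (-((N : ℝ) * y)) := by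
    rw [Complex.norm_exp]
    congr 1
    have : Complex.I * N * (x + y * Complex.I) = ((-(N * y) : ℝ) : ℂ) +
        ((N * x : ℝ) : ℂ) * Complex.I := by
      push_cast
      linear_combination (N * y : ℂ) * Complex.I_sq
    rw [this]
    simp
  have h2 : (1 : ℝ) / 2 ≤ ‖1 - Complex.exp (Complex.I * N * (x + y * Complex.I))‖ := by
    have h3 := norm_sub_norm_le (1 : ℂ) (Complex.exp (Complex.I * N * (x + y * Complex.I)))
    rw [norm_one, e] at h3
    linarith
  rw [norm_div, norm_pow, e, div_le_iff₀ (by positivity)]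
  have h4 : (1 : ℝ) / 4 ≤ ‖1 - Complex.exp (Complex.I * N * (x + y * Complex.I))‖ ^ 2 := by
    nlinarith
  have h5 := Real.exp_pos (-((N : ℝ) * y))
  nlinarith

/-- the main bound -/
theorem bd (hSB : S_SB) (hQB : S_QB) (n : ℕ) [NeZero n] {y : ℝ} (hy : 0 < y) {κ : ℝ}
    (hκ : 0 < κ) : ∀ᶠ N : ℕ in atTop, ∀ i j : Fin n → ℕ, Ok n N i j → ∀ x ∈ Set.Icc (-π) π,
      2 * (N : ℝ) ^ 2 * ‖co n N i j * (Complex.sin (x + y * Complex.I) *
        Qc n N i j (x + y * Complex.I) * kN N (x + y * Complex.I))‖ ≤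
        Real.exp (N * (HH n x y (fun r => (i r : ℝ) / N) (fun r => (j r : ℝ) / N) + κ)) := by
  have hn : (0 : ℝ) < n := by
    have := Nat.pos_of_ne_zero (NeZero.ne n)
    exact_mod_cast this
  obtain ⟨C, hC, hQ⟩ := hQB y hy
  obtain ⟨Cs, hCs⟩ := (isCompact_Icc (a := -π) (b := π)).exists_bound_of_continuousOn
    (f := fun x : ℝ => Complex.sin (x + y * Complex.I)) (by fun_prop)
  set B : ℝ := 8 * (|Cs| + 1) * C ^ n with hB
  have hB0 : 0 < B := by positivity
  have hpoly : ∀ᶠ N : ℕ in atTop, B * (N : ℝ) ^ 2 ≤ Real.exp (κ / 2 * N) := by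
    have h1 := (isLittleO_pow_exp_pos_mul_atTop 2 (show 0 < κ / 2 by linarith)).bound
      (show 0 < 1 / B by positivity)
    have h2 := tendsto_natCast_atTop_atTop (R := ℝ) |>.eventually h1
    filter_upwards [h2] with N hN
    rw [Real.norm_of_nonneg (by positivity), Real.norm_of_nonneg (by positivity), one_div,
      ← div_eq_inv_mul, le_div_iff₀ hB0] at hN
    rw [mul_comm]
    exact hN
  filter_upwards [hSB (κ / (4 * n)) (by positivity), kN_bd hy, hpoly, eventually_ge_atTop 1]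
    with N h1 h2 h3 h4 i j hij x hx
  have e1 := co_bd h1 hij
  have e2 := Qc_bd (x := x) (fun j i => hQ N h4 j i) hij
  have e3 := h2 x
  have e4 : ‖Complex.sin (x + y * Complex.I)‖ ≤ |Cs| + 1 :=
    (hCs x hx).trans (by linarith [le_abs_self Cs])
  have e5 : 2 * (n : ℝ) * (κ / (4 * n)) = κ / 2 := by
    field_simp
    ring
  rw [e5] at e1
  rw [HH_eq hy]
  set L : ℝ := ∑ r, (Lc ((i r : ℝ) / N - (j r : ℝ) / N) +
      Lc ((i (r + 1) : ℝ) / N - (j r : ℝ) / N)) with hL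
  set J : ℝ := ∑ r, ∫ t in ((j r : ℝ) / N)..((i (r + 1) : ℝ) / N), lf x y t with hJ
  rw [norm_mul, norm_mul, norm_mul]
  have e6 : ‖co n N i j‖ * (‖Complex.sin (x + y * Complex.I)‖ *
      ‖Qc n N i j (x + y * Complex.I)‖ * ‖kN N (x + y * Complex.I)‖) ≤
      Real.exp (N * (L + κ / 2)) * ((|Cs| + 1) * (C ^ n * Real.exp (N * J)) *
        (4 * Real.exp (-(N * y)))) := by
    gcongr
  refine (mul_le_mul_of_nonneg_left e6 (by positivity)).trans ?_
  have e7 : Real.exp (N * (L + J - y + κ)) = Real.exp (κ / 2 * N) *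
      (Real.exp (N * (L + κ / 2)) * Real.exp (N * J) * Real.exp (-(N * y))) := by
    rw [← Real.exp_add, ← Real.exp_add, ← Real.exp_add]
    congr 1
    ring
  have e8 : 2 * (N : ℝ) ^ 2 * (Real.exp (N * (L + κ / 2)) *
      ((|Cs| + 1) * (C ^ n * Real.exp (N * J)) * (4 * Real.exp (-(N * y))))) =
      (B * (N : ℝ) ^ 2) *
      (Real.exp (N * (L + κ / 2)) * Real.exp (N * J) * Real.exp (-(N * y))) := by
    rw [hB]
    ring
  rw [e8, e7]
  exact mul_le_mul_of_nonneg_right h3 (by positivity)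

/-! ### FARX -/

/-- FARX -/
theorem t_farx : S_FARX := by
  intro hPAR hSB hQB n _ hn hSTX ρ' hρ'
  have hy : 0 < yn n := (hPAR n hn).2.2.2.2.1
  set p : (Fin n → ℝ) × (Fin n → ℝ) := (fun _ => 1 - bs n, fun _ => bs n) with hp
  have hK : IsCompact (Set.Icc (-π) π ∩ {x : ℝ | ρ' ≤ |x|}) :=
    isCompact_Icc.inter_right (isClosed_le continuous_const continuous_abs)
  have hlt : ∀ x ∈ Set.Icc (-π) π ∩ {x : ℝ | ρ' ≤ |x|}, HH n x (yn n) p.1 p.2 < Dn n := by
    rintro x ⟨hx, hx'⟩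
    have hx0 : x ≠ 0 := by
      rintro rfl
      rw [Set.mem_ofPred_eq, abs_zero] at hx'
      linarith
    have h1 := hSTX x hx hx0
    have hn0 : (0 : ℝ) < n := by
      have : 0 < n := by omega
      exact_mod_cast this
    have e : HH n x (yn n) p.1 p.2 = 2 * n * Ep x (yn n) (1 - bs n) (bs n) - yn n := by
      unfold HH
      rw [hp]
      simp only
      rw [Finset.sum_const, Finset.card_univ, Fintype.card_fin, nsmul_eq_mul]
      ring
    rw [e]
    unfold Dn
    nlinarith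
  obtain ⟨κ, hκ, hev⟩ := tube hy p hK hlt
  obtain ⟨ρ, hρ, hball⟩ := Metric.eventually_nhds_iff.mp hev
  refine ⟨ρ, hρ, κ / 2, by linarith, ?_⟩
  filter_upwards [bd hSB hQB n hy (show 0 < κ / 2 by linarith), eventually_ge_atTop 1]
    with N h1 h2 i j hij hnear x hx hx'
  have hd : dist ((fun r => (i r : ℝ) / N, fun r => (j r : ℝ) / N) :
      (Fin n → ℝ) × (Fin n → ℝ)) p < ρ := by
    rw [Prod.dist_eq, max_lt_iff, dist_pi_lt_iff hρ, dist_pi_lt_iff hρ]
    exact ⟨fun r => (hnear r).1, fun r => (hnear r).2⟩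
  have h3 := hball hd x ⟨hx, hx'⟩
  have h4 := h1 i j hij x hx
  have h5 : (1 : ℝ) ≤ 2 * (N : ℝ) ^ 2 := by
    have : (1 : ℝ) ≤ N := by exact_mod_cast h2
    nlinarith
  have h6 := norm_nonneg (co n N i j * (Complex.sin (x + yn n * Complex.I) *
    Qc n N i j (x + yn n * Complex.I) * kN N (x + yn n * Complex.I)))
  refine le_trans ?_ (h4.trans ?_)
  · nlinarith
  · apply Real.exp_le_exp.mpr
    apply mul_le_mul_of_nonneg_left _ (Nat.cast_nonneg N)
    linarith

/-! ### FAR -/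

theorem Qc_diff (N : ℕ) (i j : Fin n → ℕ) : Differentiable ℂ (Qc n N i j) := by
  unfold Qc Pq
  fun_prop

theorem cos_per (N : ℕ) (i j : Fin n → ℕ) (z z' : ℂ) (h : Complex.cos z = Complex.cos z') :
    Qc n N i j z = Qc n N i j z' := by
  unfold Qc Pq
  rw [h]

/-- the compact set -/
theorem K_compact (α β ρ : ℝ) : IsCompact {q : (Fin n → ℝ) × (Fin n → ℝ) | PO n q.1 q.2 ∧
    ∃ r, ρ ≤ |q.1 r - α| ∨ ρ ≤ |q.2 r - β|} := by
  have h1 : ∀ s : Fin n, Continuous fun z : (Fin n → ℝ) × (Fin n → ℝ) => z.1 s :=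
    fun s => (continuous_apply s).comp continuous_fst
  have h2 : ∀ s : Fin n, Continuous fun z : (Fin n → ℝ) × (Fin n → ℝ) => z.2 s :=
    fun s => (continuous_apply s).comp continuous_snd
  have e : {q : (Fin n → ℝ) × (Fin n → ℝ) | PO n q.1 q.2 ∧
      ∃ r, ρ ≤ |q.1 r - α| ∨ ρ ≤ |q.2 r - β|} =
      (((⋂ r, {q | 0 ≤ q.2 r}) ∩ (⋂ r, {q | q.1 r ≤ 1})) ∩
        ((⋂ r, {q | q.2 r ≤ q.1 r}) ∩ (⋂ r, {q | q.2 r ≤ q.1 (r + 1)}))) ∩
        ⋃ r, ({q | ρ ≤ |q.1 r - α|} ∪ {q | ρ ≤ |q.2 r - β|}) := by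
    ext q
    simp only [Set.mem_inter_iff, Set.mem_iInter, Set.mem_iUnion, Set.mem_union, Set.mem_ofPred_eq]
    constructor
    · rintro ⟨⟨a1, a2, a3, a4⟩, a5⟩
      exact ⟨⟨⟨a1, a2⟩, a3, a4⟩, a5⟩
    · rintro ⟨⟨⟨a1, a2⟩, a3, a4⟩, a5⟩
      exact ⟨⟨a1, a2, a3, a4⟩, a5⟩
  have hcl : IsClosed {q : (Fin n → ℝ) × (Fin n → ℝ) | PO n q.1 q.2 ∧
      ∃ r, ρ ≤ |q.1 r - α| ∨ ρ ≤ |q.2 r - β|} := by
    rw [e]
    refine IsClosed.inter (IsClosed.inter (IsClosed.inter ?_ ?_) (IsClosed.inter ?_ ?_)) ?_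
    · exact isClosed_iInter fun r => isClosed_le continuous_const (h2 r)
    · exact isClosed_iInter fun r => isClosed_le (h1 r) continuous_const
    · exact isClosed_iInter fun r => isClosed_le (h2 r) (h1 r)
    · exact isClosed_iInter fun r => isClosed_le (h2 r) (h1 (r + 1))
    · refine isClosed_iUnion_of_finite fun r => IsClosed.union ?_ ?_
      · exact isClosed_le continuous_const ((h1 r).sub continuous_const).abs
      · exact isClosed_le continuous_const ((h2 r).sub continuous_const).abs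
  refine IsCompact.of_isClosed_subset ((isCompact_univ_pi fun _ : Fin n =>
    isCompact_Icc (a := (0 : ℝ)) (b := 1)).prod (isCompact_univ_pi fun _ : Fin n =>
    isCompact_Icc (a := (0 : ℝ)) (b := 1))) hcl ?_
  rintro q ⟨hq, -⟩
  refine ⟨fun r _ => ⟨(hq.nn r).trans (hq.le r), hq.le1 r⟩,
    fun r _ => ⟨hq.nn r, (hq.le r).trans (hq.le1 r)⟩⟩

/-- FAR -/
theorem t_far : S_FAR := by
  classical
  intro _ hSB hQB hCON n _ hn hST ρ hρ
  have hcov : ∃ (Y : Finset ℝ) (κ : ℝ), 0 < κ ∧ (∀ y ∈ Y, 0 < y) ∧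
      ∀ q ∈ {q : (Fin n → ℝ) × (Fin n → ℝ) | PO n q.1 q.2 ∧
        ∃ r, ρ ≤ |q.1 r - (1 - bs n)| ∨ ρ ≤ |q.2 r - bs n|},
      ∃ y ∈ Y, ∀ x ∈ Set.Icc (-π) π, HH n x y q.1 q.2 ≤ Dn n - κ := by
    refine (K_compact (n := n) (1 - bs n) (bs n) ρ).induction_on
      (p := fun s => ∃ (Y : Finset ℝ) (κ : ℝ), 0 < κ ∧ (∀ y ∈ Y, 0 < y) ∧
        ∀ q ∈ s, ∃ y ∈ Y, ∀ x ∈ Set.Icc (-π) π, HH n x y q.1 q.2 ≤ Dn n - κ) ?_ ?_ ?_ ?_
    · exact ⟨∅, 1, one_pos, fun y hy => absurd hy (Finset.notMem_empty y),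
        fun q hq => absurd hq (Set.notMem_empty q)⟩
    · rintro s t hst ⟨Y, κ, h1, h2, h3⟩
      exact ⟨Y, κ, h1, h2, fun q hq => h3 q (hst hq)⟩
    · rintro s t ⟨Y, κ, h1, h2, h3⟩ ⟨Y', κ', h1', h2', h3'⟩
      refine ⟨Y ∪ Y', min κ κ', lt_min h1 h1', ?_, ?_⟩
      · intro y hy
        rcases Finset.mem_union.mp hy with h | h
        · exact h2 y h
        · exact h2' y h
      · intro q hq
        rcases hq with h | h
        · obtain ⟨y, hy, h4⟩ := h3 q h
          exact ⟨y, Finset.mem_union_left _ hy, fun x hx => (h4 x hx).trans (by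
            linarith [min_le_left κ κ'])⟩
        · obtain ⟨y, hy, h4⟩ := h3' q h
          exact ⟨y, Finset.mem_union_right _ hy, fun x hx => (h4 x hx).trans (by
            linarith [min_le_right κ κ'])⟩
    · rintro q ⟨hq1, r, hr⟩
      have hne : ¬ ∀ r, q.1 r = 1 - bs n ∧ q.2 r = bs n := by
        intro h
        obtain ⟨a1, a2⟩ := h r
        rw [a1, a2, sub_self, sub_self, abs_zero] at hr
        rcases hr with h | h <;> linarith
      obtain ⟨y, hy, hlt⟩ := hST q.1 q.2 hq1 hne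
      obtain ⟨κ, hκ, hev⟩ := tube hy q isCompact_Icc hlt
      refine ⟨{q' | ∀ x ∈ Set.Icc (-π) π, HH n x y q'.1 q'.2 ≤ Dn n - κ},
        mem_nhdsWithin_of_mem_nhds hev, {y}, κ, hκ, ?_, ?_⟩
      · intro y' hy'
        rw [Finset.mem_singleton.mp hy']
        exact hy
      · intro q' hq'
        exact ⟨y, Finset.mem_singleton_self y, hq'⟩
  obtain ⟨Y, κ, hκ, hY, hcov⟩ := hcov
  refine ⟨κ / 2, by linarith, ?_⟩
  have hall : ∀ᶠ N : ℕ in atTop, ∀ y ∈ Y, ∀ i j : Fin n → ℕ, Ok n N i j →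
      ∀ x ∈ Set.Icc (-π) π,
      2 * (N : ℝ) ^ 2 * ‖co n N i j * (Complex.sin (x + y * Complex.I) *
        Qc n N i j (x + y * Complex.I) * kN N (x + y * Complex.I))‖ ≤
        Real.exp (N * (HH n x y (fun r => (i r : ℝ) / N) (fun r => (j r : ℝ) / N) + κ / 2)) := by
    rw [Filter.eventually_all_finset]
    exact fun y hy => bd hSB hQB n (hY y hy) (show 0 < κ / 2 by linarith)
  filter_upwards [hall, eventually_ge_atTop 1] with N h1 h2 i j hij hfar
  have hN : (0 : ℝ) < N := by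
    have : (1 : ℝ) ≤ N := by exact_mod_cast h2
    linarith
  have hPO : PO n (fun r => (i r : ℝ) / N) (fun r => (j r : ℝ) / N) := by
    refine ⟨fun r => by positivity, fun r => ?_, fun r => ?_, fun r => ?_⟩
    · rw [div_le_one hN]
      exact_mod_cast (hij.lt r).le
    · exact div_le_div_of_nonneg_right (by exact_mod_cast hij.le r) hN.le
    · exact div_le_div_of_nonneg_right (by exact_mod_cast hij.le' r) hN.le
  obtain ⟨y, hyY, hy1⟩ := hcov (fun r => (i r : ℝ) / N, fun r => (j r : ℝ) / N) ⟨hPO, hfar⟩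
  have hy := hY y hyY
  have h3 := hCON N (fun χ => Complex.sin χ * Qc n N i j χ) y h2 hy
    (Complex.differentiable_sin.mul (Qc_diff N i j))
    (fun z => by
      show Complex.sin (z + 2 * π) * Qc n N i j (z + 2 * π) = _
      rw [Complex.sin_add_two_pi, cos_per N i j (z + 2 * π) z (Complex.cos_add_two_pi z)])
    (fun z => by
      show Complex.sin (-z) * Qc n N i j (-z) = _
      rw [Complex.sin_neg, cos_per N i j (-z) z (Complex.cos_neg z)]
      ring)
  unfold ct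
  rw [h3]
  have e1 : co n N i j * (-(Complex.I * (N : ℂ) ^ 2 / π) * ∫ x in (-π)..π,
      (fun χ => Complex.sin χ * Qc n N i j χ) (x + y * Complex.I) * kN N (x + y * Complex.I)) =
      -(Complex.I * (N : ℂ) ^ 2 / π) * ∫ x in (-π)..π, co n N i j *
        (Complex.sin (x + y * Complex.I) * Qc n N i j (x + y * Complex.I) *
          kN N (x + y * Complex.I)) := by
    rw [intervalIntegral.integral_const_mul]
    ring
  rw [e1, norm_mul]
  have e2 : ‖-(Complex.I * (N : ℂ) ^ 2 / π)‖ = (N : ℝ) ^ 2 / π := by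
    rw [norm_neg, norm_div, norm_mul, Complex.norm_I, one_mul, norm_pow, Complex.norm_natCast,
      Complex.norm_real, Real.norm_of_nonneg Real.pi_pos.le]
  have e3 : ‖∫ x in (-π)..π, co n N i j *
        (Complex.sin (x + y * Complex.I) * Qc n N i j (x + y * Complex.I) *
          kN N (x + y * Complex.I))‖ ≤
      Real.exp (N * (Dn n - κ / 2)) / (2 * (N : ℝ) ^ 2) * |π - -π| := by
    refine intervalIntegral.norm_integral_le_of_norm_le_const fun x hx => ?_
    rw [Set.uIoc_of_le (by linarith [Real.pi_pos])] at hx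
    have hx' : x ∈ Set.Icc (-π) π := ⟨hx.1.le, hx.2⟩
    rw [le_div_iff₀ (by positivity), mul_comm]
    refine (h1 y hyY i j hij x hx').trans ?_
    apply Real.exp_le_exp.mpr
    apply mul_le_mul_of_nonneg_left _ hN.le
    have := hy1 x hx'
    linarith
  rw [e2]
  refine (mul_le_mul_of_nonneg_left e3 (by positivity)).trans (le_of_eq ?_)
  rw [sub_neg_eq_add, abs_of_pos (by linarith [Real.pi_pos])]
  have hpi : π ≠ 0 := Real.pi_ne_zero
  field_simp
  ring

end Pool.Agent.Y100.TK
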