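import Pool.Agent.Y472.K.Defs2

/-!
# Symmetry of the quadratic forms of the Turk's head links (task SYM)
-/

set_option autoImplicit false

namespace Pool.Agent.Y100.TK

open Finset Filter Topology MeasureTheory
open Pool.Agent.W711.HT Pool.Agent.Y472.K
open scoped Real ComplexConjugate

/-! ### The logarithm -/

theorem arg_eq (x y t : ℝ) : 2 * Complex.cos (x + y * Complex.I) - 2 * (Real.cos (2 * π * t) : ℂ) =
    ((2 * (Real.cos x * Real.cosh y) - 2 * Real.cos (2 * π * t) : ℝ) : ℂ) -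
      ((2 * (Real.sin x * Real.sinh y) : ℝ) : ℂ) * Complex.I := by
  rw [Complex.cos_add_mul_I]
  push_cast
  ring

theorem arg_conj (x y t : ℝ) :
    2 * Complex.cos (((-x : ℝ) : ℂ) + y * Complex.I) - 2 * (Real.cos (2 * π * t) : ℂ) =
      conj (2 * Complex.cos (x + y * Complex.I) - 2 * (Real.cos (2 * π * t) : ℂ)) := by
  rw [arg_eq, arg_eq, map_sub, map_mul, Complex.conj_ofReal, Complex.conj_ofReal, Complex.conj_I,
    Real.cos_neg, Real.sin_neg]
  push_cast
  ring

theorem arg_re {x y : ℝ} (h : 1 < Real.cos x * Real.cosh y) (t : ℝ) :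
    0 < (2 * Complex.cos (x + y * Complex.I) - 2 * (Real.cos (2 * π * t) : ℂ)).re := by
  rw [arg_eq]
  have h1 : (((2 * (Real.cos x * Real.cosh y) - 2 * Real.cos (2 * π * t) : ℝ) : ℂ) -
      ((2 * (Real.sin x * Real.sinh y) : ℝ) : ℂ) * Complex.I).re =
      2 * (Real.cos x * Real.cosh y) - 2 * Real.cos (2 * π * t) := by
    rw [Complex.sub_re, Complex.mul_re, Complex.ofReal_re, Complex.ofReal_re, Complex.ofReal_im,
      Complex.I_re, Complex.I_im]
    ring
  rw [h1]
  have := Real.cos_le_one (2 * π * t)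
  linarith

theorem clf_conj {x y : ℝ} (h : 1 < Real.cos x * Real.cosh y) (t : ℝ) :
    clf (-x) y t = conj (clf x y t) := by
  unfold clf
  rw [arg_conj, Complex.log_conj]
  intro h1
  have h2 := arg_re h t
  rw [Complex.arg_eq_pi_iff] at h1
  linarith [h1.1]

theorem clf_cont {x y : ℝ} (h : 1 < Real.cos x * Real.cosh y) : Continuous fun t => clf x y t := by
  unfold clf
  refine Continuous.clog ?_ fun t => ?_
  · fun_prop
  · exact Or.inl (arg_re h t)

theorem clf_sub {x y : ℝ} (h : 1 < Real.cos x * Real.cosh y) (a b : ℝ) :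
    ∫ t in b..a, clf x y t = (∫ t in (0 : ℝ)..a, clf x y t) - ∫ t in (0 : ℝ)..b, clf x y t :=
  (intervalIntegral.integral_interval_sub_left ((clf_cont h).intervalIntegrable _ _)
    ((clf_cont h).intervalIntegrable _ _)).symm

theorem int_conj {x y : ℝ} (h : 1 < Real.cos x * Real.cosh y) (a b : ℝ) :
    ∫ t in b..a, clf (-x) y t = conj (∫ t in b..a, clf x y t) := by
  simp only [clf_conj h]
  rw [intervalIntegral.intervalIntegral_eq_integral_uIoc,
    intervalIntegral.intervalIntegral_eq_integral_uIoc, integral_conj]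
  split_ifs <;> simp

variable {n : ℕ} [NeZero n]

/-- the reflection of the indices -/
theorem sum_refl {M : Type} [AddCommMonoid M] (f : Fin n → M) :
    ∑ r : Fin n, f (-r - 1) = ∑ r, f r :=
  Fintype.sum_equiv ((Equiv.neg (Fin n)).trans (Equiv.subRight (1 : Fin n))) _ _ fun _ => rfl

theorem neg_eq (r : Fin n) : -r = (-r - 1) + 1 := by rw [sub_add_cancel]

theorem neg_succ (r : Fin n) : -(r + 1) = -r - 1 := by rw [neg_add, sub_eq_add_neg]

/-- the exponent of the reflected configuration -/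
theorem Xe_refl (N : ℕ) (i j : Fin n → ℕ) {x : ℝ} (h : 1 < Real.cos x * Real.cosh (yn n)) :
    Xe n N (fun r => i (-r)) (fun r => j (-r - 1)) (-x) = conj (Xe n N i j x) := by
  unfold Xe
  simp only [neg_succ]
  have e1 : ∑ r : Fin n, ((Lc (((i (-r) : ℝ) - j (-r - 1)) / N) : ℂ) +
      (Lc (((i (-r - 1) : ℝ) - j (-r - 1)) / N) : ℂ)) =
      ∑ r : Fin n, ((Lc (((i r : ℝ) - j r) / N) : ℂ) + (Lc (((i (r + 1) : ℝ) - j r) / N) : ℂ)) := by
    rw [← sum_refl fun r : Fin n => ((Lc (((i r : ℝ) - j r) / N) : ℂ) +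
      (Lc (((i (r + 1) : ℝ) - j r) / N) : ℂ))]
    refine Finset.sum_congr rfl fun r _ => ?_
    rw [← neg_eq, add_comm]
  have e2 : ∑ r : Fin n, (∫ t in ((j (-r - 1) : ℝ) / N)..((i (-r - 1) : ℝ) / N),
      clf (-x) (yn n) t) = ∑ r : Fin n,
      (∫ t in ((j r : ℝ) / N)..((i r : ℝ) / N), clf (-x) (yn n) t) :=
    sum_refl fun r : Fin n => ∫ t in ((j r : ℝ) / N)..((i r : ℝ) / N), clf (-x) (yn n) t
  obtain ⟨P, hP⟩ : ∃ P : ℝ → ℂ, ∀ a b, ∫ t in b..a, clf x (yn n) t = P a - P b :=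
    ⟨fun u => ∫ t in (0 : ℝ)..u, clf x (yn n) t, fun a b => clf_sub h a b⟩
  have e3 : ∑ r : Fin n, (∫ t in ((j r : ℝ) / N)..((i r : ℝ) / N), clf (-x) (yn n) t) =
      conj (∑ r : Fin n, ∫ t in ((j r : ℝ) / N)..((i (r + 1) : ℝ) / N), clf x (yn n) t) := by
    simp only [int_conj h, hP]
    rw [← map_sum]
    congr 1
    rw [Finset.sum_sub_distrib, Finset.sum_sub_distrib]
    congr 1
    exact (Equiv.sum_comp (Equiv.addRight (1 : Fin n)) fun r => P ((i r : ℝ) / N)).symm
  rw [e1, e2, e3, map_sub, map_add, map_add, map_sum, map_mul, Complex.conj_I,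
    Complex.conj_ofReal, Complex.conj_ofReal]
  have e4 : conj (∑ r : Fin n, ((Lc (((i r : ℝ) - j r) / N) : ℂ) +
      (Lc (((i (r + 1) : ℝ) - j r) / N) : ℂ))) = ∑ r : Fin n, ((Lc (((i r : ℝ) - j r) / N) : ℂ) +
      (Lc (((i (r + 1) : ℝ) - j r) / N) : ℂ)) := by
    rw [map_sum]
    refine Finset.sum_congr rfl fun r _ => ?_
    rw [map_add, Complex.conj_ofReal, Complex.conj_ofReal]
  rw [e4]
  push_cast
  ring

/-- the quadratic phase of the reflected configuration -/
theorem ph_refl (i j : Fin n → ℕ) :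
    ∑ r : Fin n, ((i (-r) : ℂ) - i (-(r + 1))) * j (-r - 1) =
      -∑ r : Fin n, ((i r : ℂ) - i (r + 1)) * j r := by
  rw [← sum_refl fun r : Fin n => ((i r : ℂ) - i (r + 1)) * j r, ← Finset.sum_neg_distrib]
  refine Finset.sum_congr rfl fun r _ => ?_
  rw [neg_succ, ← neg_eq]
  ring

/-! ### The reflection -/

/-- the reflection -/
def T (n : ℕ) [NeZero n] : ((Fin n ⊕ Fin n → ℝ) × ℝ) →ₗ[ℝ] ((Fin n ⊕ Fin n → ℝ) × ℝ) where
  toFun v := (fun s => Sum.elim (fun r => v.1 (Sum.inl (-r))) (fun r => v.1 (Sum.inr (-r - 1))) s,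
    -v.2)
  map_add' v w := by
    refine Prod.ext (funext fun s => ?_) ?_
    · rcases s with s | s <;> rfl
    · show -(v.2 + w.2) = -v.2 + -w.2
      ring
  map_smul' c v := by
    refine Prod.ext (funext fun s => ?_) ?_
    · rcases s with s | s <;> rfl
    · show -(c * v.2) = c * -v.2
      ring

theorem TT (v : (Fin n ⊕ Fin n → ℝ) × ℝ) : T n (T n v) = v := by
  refine Prod.ext (funext fun s => ?_) ?_
  · rcases s with s | s
    · show v.1 (Sum.inl (- -s)) = _
      rw [neg_neg]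
    · show v.1 (Sum.inr (-(-s - 1) - 1)) = _
      rw [neg_sub, sub_neg_eq_add, add_sub_cancel_left]
  · show - -v.2 = v.2
    ring

/-! ### Sequences -/

theorem seq_lim {β : ℝ} (hβ : 0 < β) (u : ℝ) : Tendsto (fun N : ℕ =>
    √(N : ℝ) * ((⌊β * N + √(N : ℝ) * u⌋₊ : ℝ) / N - β)) atTop (𝓝 u) := by
  have hs : Tendsto (fun N : ℕ => √(N : ℝ)) atTop atTop :=
    Real.tendsto_sqrt_atTop.comp tendsto_natCast_atTop_atTop
  have hinv : Tendsto (fun N : ℕ => (√(N : ℝ))⁻¹) atTop (𝓝 0) := hs.inv_tendsto_atTop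
  have hpos : ∀ᶠ N : ℕ in atTop, 0 ≤ β * N + √(N : ℝ) * u := by
    have h1 : ∀ᶠ N : ℕ in atTop, |u| / β ≤ √(N : ℝ) := hs.eventually_ge_atTop _
    filter_upwards [h1] with N h2
    rw [div_le_iff₀ hβ] at h2
    have h3 : √(N : ℝ) * √(N : ℝ) = N := Real.mul_self_sqrt (Nat.cast_nonneg N)
    have h4 : 0 ≤ √(N : ℝ) := Real.sqrt_nonneg _
    have h5 : -|u| ≤ u := neg_abs_le u
    nlinarith
  have hb : ∀ᶠ N : ℕ in atTop, |√(N : ℝ) * ((⌊β * N + √(N : ℝ) * u⌋₊ : ℝ) / N - β) - u| ≤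
      (√(N : ℝ))⁻¹ := by
    filter_upwards [hpos, eventually_ge_atTop 1] with N h1 h2
    have hN : (0 : ℝ) < N := by
      have : (1 : ℝ) ≤ N := by exact_mod_cast h2
      linarith
    have hs0 : 0 < √(N : ℝ) := Real.sqrt_pos.mpr hN
    have h3 : √(N : ℝ) * √(N : ℝ) = N := Real.mul_self_sqrt hN.le
    have h4 := Nat.floor_le h1
    have h5 := Nat.lt_floor_add_one (β * N + √(N : ℝ) * u)
    set F : ℝ := (⌊β * N + √(N : ℝ) * u⌋₊ : ℝ) with hF
    have e : √(N : ℝ) * (F / N - β) - u = (√(N : ℝ))⁻¹ * (F - (β * N + √(N : ℝ) * u)) := by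
      have hN' : (N : ℝ) = √(N : ℝ) * √(N : ℝ) := h3.symm
      generalize √(N : ℝ) = s at *
      rw [hN']
      field_simp
      ring
    rw [e, abs_mul, abs_of_pos (inv_pos.mpr hs0)]
    have h6 : |F - (β * N + √(N : ℝ) * u)| ≤ 1 := by
      rw [abs_le]
      constructor <;> linarith
    calc (√(N : ℝ))⁻¹ * |F - (β * N + √(N : ℝ) * u)| ≤ (√(N : ℝ))⁻¹ * 1 :=
          mul_le_mul_of_nonneg_left h6 (inv_pos.mpr hs0).le
      _ = (√(N : ℝ))⁻¹ := mul_one _
  rw [tendsto_iff_norm_sub_tendsto_zero]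
  refine squeeze_zero' (Eventually.of_forall fun N => norm_nonneg _) ?_ hinv
  filter_upwards [hb] with N h
  rw [Real.norm_eq_abs]
  exact h

/-- SYM -/
theorem t_SYM : S_SYM := by
  intro hPAR n _ hn R S hRS
  obtain ⟨-, -, hCh, -, hyn, hcosh, hb1, hb2, -⟩ := hPAR n hn
  refine ⟨T n, TT, ?_⟩
  have key : ∀ v, R (T n v) = R v ∧ S (T n v) = -S v := by
    intro v
    set i : ℕ → Fin n → ℕ := fun N r => ⌊(1 - bs n) * N + √(N : ℝ) * v.1 (Sum.inl r)⌋₊ with hi
    set j : ℕ → Fin n → ℕ := fun N r => ⌊bs n * N + √(N : ℝ) * v.1 (Sum.inr r)⌋₊ with hj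
    set x : ℕ → ℝ := fun N => v.2 / √(N : ℝ) with hx
    have hil : ∀ r, Tendsto (fun N : ℕ => √(N : ℝ) * ((i N r : ℝ) / N - (1 - bs n))) atTop
        (𝓝 (v.1 (Sum.inl r))) := fun r => seq_lim (by linarith) _
    have hjl : ∀ r, Tendsto (fun N : ℕ => √(N : ℝ) * ((j N r : ℝ) / N - bs n)) atTop
        (𝓝 (v.1 (Sum.inr r))) := fun r => seq_lim (by linarith) _
    have hs : Tendsto (fun N : ℕ => √(N : ℝ)) atTop atTop :=
      Real.tendsto_sqrt_atTop.comp tendsto_natCast_atTop_atTop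
    have hxl : Tendsto (fun N : ℕ => √(N : ℝ) * x N) atTop (𝓝 v.2) := by
      refine tendsto_const_nhds.congr' ?_
      filter_upwards [hs.eventually_gt_atTop 0] with N hN
      rw [hx]
      field_simp
    have hx0 : Tendsto x atTop (𝓝 0) := hs.const_div_atTop v.2
    have h1 := hRS.lim i j x v hil hjl hxl
    have h2 := hRS.lim (fun N r => i N (-r)) (fun N r => j N (-r - 1)) (fun N => -x N) (T n v)
      (fun r => hil (-r)) (fun r => hjl (-r - 1)) (by
        have h3 := hxl.neg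
        simp only [← mul_neg] at h3
        exact h3)
    have hev : ∀ᶠ N : ℕ in atTop, 1 < Real.cos (x N) * Real.cosh (yn n) := by
      have h3 : Tendsto (fun N => Real.cos (x N) * Real.cosh (yn n)) atTop
          (𝓝 (Real.cos 0 * Real.cosh (yn n))) :=
        ((Real.continuous_cos.tendsto 0).comp hx0).mul_const _
      refine h3.eventually_const_lt ?_
      rw [Real.cos_zero, one_mul, hcosh]
      exact hCh
    have h4 := (Complex.continuous_conj.tendsto _).comp h1
    have h5 := h4.congr' (f₂ := fun N : ℕ => (N : ℂ) * (Xe n N (fun r => i N (-r))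
      (fun r => j N (-r - 1)) (-x N) - Dn n) + Complex.I * π / N *
        ∑ r, (((i N (-r) : ℕ) : ℂ) - (i N (-(r + 1)) : ℕ)) * (j N (-r - 1) : ℕ)) (by
      filter_upwards [hev] with N hN
      rw [Xe_refl N (i N) (j N) hN, ph_refl (i N) (j N)]
      simp only [Function.comp_apply, map_add, map_mul, map_sub, map_div₀, map_sum,
        Complex.conj_I, Complex.conj_ofReal, map_natCast]
      ring)
    have h6 := tendsto_nhds_unique h2 h5
    rw [map_sub, map_neg, map_mul, Complex.conj_I, Complex.conj_ofReal, Complex.conj_ofReal] at h6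
    have hre := congrArg Complex.re h6
    have him := congrArg Complex.im h6
    simp only [Complex.sub_re, Complex.neg_re, Complex.ofReal_re, Complex.mul_re, Complex.I_re,
      Complex.I_im, Complex.ofReal_im, Complex.sub_im, Complex.neg_im, Complex.mul_im] at hre him
    constructor
    · linarith
    · linarith
  exact ⟨fun v => (key v).1, fun v => (key v).2⟩

end Pool.Agent.Y100.TK
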